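import Mathlib
import Pool.Agent.Lib.MP_2842de_pr.Strong

set_option autoImplicit false

namespace Pool.Agent.Results.MP_2842de_pr.NoPrecutoff

open Finset Matrix

/-- The function kappa-plus of the phase diagram. -/
noncomputable def kappa (q x y : ℝ) : ℝ :=
  (1 - q - x + y + Real.sqrt ((1 - q - x + y) ^ 2 + 4 * x * y)) / (2 * x)

/-- The generator of open ASEP on `N` sites (`true` means occupied; site `0` is the left end),
applied to a function `f` at the configuration `η`. Across a bond `(i, i+1)` a particle jumps right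
at rate `1` and left at rate `q` onto an empty site; at the left end a particle enters at rate `α`
and leaves at rate `γ`; at the right end it enters at rate `δ` and leaves at rate `β`. -/
noncomputable def gen (q α β γ δ : ℝ) (N : ℕ) (f : (Fin N → Bool) → ℝ) (η : Fin N → Bool) : ℝ :=
  (∑ i : Fin N, ∑ j : Fin N, if j.val = i.val + 1 then
      (if η i = true ∧ η j = false then 1 else if η i = false ∧ η j = true then q else 0)
        * (f (η ∘ Equiv.swap i j) - f η) else 0)
  + (∑ i : Fin N, if i.val = 0 then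
      (if η i = true then γ else α) * (f (Function.update η i (!η i)) - f η) else 0)
  + (∑ i : Fin N, if i.val + 1 = N then
      (if η i = true then β else δ) * (f (Function.update η i (!η i)) - f η) else 0)

/-- The rate matrix: entry `(η, ξ)` is the generator applied to the indicator of `ξ`, at `η`. -/
noncomputable def rates (q α β γ δ : ℝ) (N : ℕ) : Matrix (Fin N → Bool) (Fin N → Bool) ℝ :=
  Matrix.of fun η ξ => gen q α β γ δ N (fun ζ => if ζ = ξ then 1 else 0) η

/-- The transition probabilities at time `t`: the matrix exponential of `t` times the rate matrix. -/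
noncomputable def trans (q α β γ δ : ℝ) (N : ℕ) (t : ℝ) :
    Matrix (Fin N → Bool) (Fin N → Bool) ℝ :=
  NormedSpace.exp (t • rates q α β γ δ N)

/-- `p` is a stationary probability law of the chain on `N` sites. -/
def IsStationary (q α β γ δ : ℝ) (N : ℕ) (p : (Fin N → Bool) → ℝ) : Prop :=
  (∀ η, 0 ≤ p η) ∧ ∑ η, p η = 1 ∧ ∀ ξ, ∑ η, p η * rates q α β γ δ N η ξ = 0

/-- The total variation mixing time at level `ε` towards the law `p`. -/
noncomputable def tmix (q α β γ δ : ℝ) (N : ℕ) (p : (Fin N → Bool) → ℝ) (ε : ℝ) : ℝ :=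
  sInf {t : ℝ | 0 ≤ t ∧ ∀ η, (∑ ξ, |trans q α β γ δ N t η ξ - p ξ|) / 2 ≤ ε}

open Pool.Agent.Lib.MP_2842de_pr in
lemma isGen (q α β γ δ : ℝ) (n : ℕ) : IsGen q α β γ δ (rates q α β γ δ (n + 1)) := by
  intro x f η
  have k : ∀ (c : ℝ) (a : Fin (n + 1) → Bool),
      ∑ ξ, c * ((if a = ξ then (1 : ℝ) else 0) - (if η = ξ then 1 else 0)) * f ξ
        = c * (f a - f η) := by
    intro c a
    simp only [mul_assoc, ← Finset.mul_sum, sub_mul, Finset.sum_sub_distrib, ite_mul, one_mul,
      zero_mul, Finset.sum_ite_eq, Finset.mem_univ, if_true]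
  have h1 : ∀ i : Fin (n + 1), (i.val = 0) ↔ i = 0 := by intro i; rw [Fin.ext_iff]; simp
  have h2 : ∀ i : Fin (n + 1), (i.val + 1 = n + 1) ↔ i = Fin.last n := by
    intro i; rw [Fin.ext_iff]; simp
  have e0 : (rates q α β γ δ (n + 1) *ᵥ f) η = gen q α β γ δ (n + 1) f η := by
    simp only [Matrix.mulVec, dotProduct, rates, Matrix.of_apply, gen]
    simp only [sum_adjacent, h1, h2, Finset.sum_ite_eq', Finset.mem_univ, if_true, add_mul,
      Finset.sum_add_distrib, Finset.sum_mul, k]
    rw [Finset.sum_comm]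
    simp only [k]
  rw [e0, sum_Mv]
  simp only [gen, sum_adjacent, h1, h2, Finset.sum_ite_eq', Finset.mem_univ, if_true, rate, actC,
    sub_self, mul_zero, zero_add]
  have hb : ∀ i : Fin n,
      (if η i.castSucc = true ∧ η i.succ = false then 1
        else if η i.castSucc = false ∧ η i.succ = true then q else 0)
        * (f (η ∘ Equiv.swap i.castSucc i.succ) - f η)
      = 1 * (f (bulk i true η) - f η) + q * (f (bulk i false η) - f η) := by
    intro i
    have hs : Function.update (Function.update η i.castSucc (η i.castSucc)) i.succ (η i.succ)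
        = η := by simp
    rw [Equiv.swap_comm, Equiv.comp_swap_eq_update]
    unfold bulk
    cases g1 : η i.castSucc <;> cases g2 : η i.succ <;> rw [g1, g2] at hs <;> simp [hs]
  have hl : ∀ (i : Fin (n + 1)) (a c : ℝ),
      (if η i = true then c else a) * (f (Function.update η i (!η i)) - f η)
      = a * (f (Function.update η i true) - f η) + c * (f (Function.update η i false) - f η) := by
    intro i a c
    have hs : Function.update η i (η i) = η := by simp
    cases g1 : η i <;> rw [g1] at hs <;> simp [hs]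
  simp only [hb, hl, Bool.not_true, Bool.not_false]
  ring

/-- On the whole coexistence line the mixing time at every level below one half has order `N ^ 2`,
and the ratio of the mixing times at levels `ε` and `1 - ε` stays above any given bound for all
small `ε` and all large `N`: no cutoff, not even pre-cutoff. -/
theorem result (q α β γ δ : ℝ) (hq : 0 ≤ q) (hq1 : q < 1) (hα : 0 < α) (hβ : 0 < β)
    (hγ : 0 ≤ γ) (hδ : 0 ≤ δ) (hAC : kappa q β δ = kappa q α γ) (hC : 1 < kappa q α γ)
    (p : (N : ℕ) → (Fin N → Bool) → ℝ) (hp : ∀ N, IsStationary q α β γ δ N (p N)) :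
    (∀ ε : ℝ, 0 < ε → ε < 1 / 2 → ∃ c c' : ℝ, 0 < c ∧ c ≤ c' ∧ ∀ᶠ N : ℕ in Filter.atTop,
      c * (N : ℝ) ^ 2 ≤ tmix q α β γ δ N (p N) ε ∧ tmix q α β γ δ N (p N) ε ≤ c' * (N : ℝ) ^ 2) ∧
    (∀ K : ℝ, ∃ ε₀ : ℝ, 0 < ε₀ ∧ ε₀ < 1 / 2 ∧ ∀ ε : ℝ, 0 < ε → ε ≤ ε₀ →
      ∀ᶠ N : ℕ in Filter.atTop, 0 < tmix q α β γ δ N (p N) (1 - ε) ∧
        K ≤ tmix q α β γ δ N (p N) ε / tmix q α β γ δ N (p N) (1 - ε)) := by
  obtain ⟨ρ, H⟩ := Pool.Agent.Lib.MP_2842de_pr.coex_of hq hq1 hα hβ hγ hδ hAC.symm hC
  have hG := isGen q α β γ δ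
  refine Pool.Agent.Lib.MP_2842de_pr.strong_of_contr (S := fun N => Fin N → Bool)
    (rates q α β γ δ) p (fun N => tmix q α β γ δ N (p N))
    (fun N => (hp N).1) (fun N => (hp N).2.1) (fun N ε => rfl) ?_ ?_ (fun N => ?_)
    (fun τ hτ => ?_) ?_
  · refine Pool.Agent.Lib.MP_2842de_pr.eventually_of_succ (Filter.Eventually.of_forall fun n => ?_)
    intro t ht
    exact (hG n).base H (hp (n + 1)).2.2 t ht
  · exact Pool.Agent.Lib.MP_2842de_pr.eventually_of_succ
      (Filter.Eventually.of_forall fun n => (hG n).diag H)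
  · rw [Fintype.card_fun, Fintype.card_bool, Fintype.card_fin]
    exact Nat.lt_two_pow_self.le
  · obtain ⟨ε, hε, hev⟩ := Pool.Agent.Lib.MP_2842de_pr.upper_cont H hτ
    refine ⟨ε, hε, Pool.Agent.Lib.MP_2842de_pr.eventually_of_succ ?_⟩
    filter_upwards [hev] with n hn
    have := hn _ (hG n)
    simpa only [Nat.cast_add, Nat.cast_one] using this
  · obtain ⟨τ, ε, hτ, hε, hev⟩ := Pool.Agent.Lib.MP_2842de_pr.lower_cont H
    refine ⟨τ, ε, hτ, hε, Pool.Agent.Lib.MP_2842de_pr.eventually_of_succ ?_⟩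
    filter_upwards [hev] with n hn
    have := hn _ (hG n)
    simpa only [Nat.cast_add, Nat.cast_one] using this

end Pool.Agent.Results.MP_2842de_pr.NoPrecutoff
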